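import Pool.Agent.Lib.MP_72b724_gt.H7.Lift

/-!
# The action of the fundamental group on the simplices of the universal cover
-/

open scoped Topology
open Set Filter Pool.Agent.Lib.MP_904b2a_gt Pool.Agent.Lib.MP_89fcdb_gt

namespace Pool.Agent.Lib.MP_72b724_gt.H7

noncomputable section

variable {M : Type} [TopologicalSpace M] {x₀ : M}

theorem Cov.tr_one (p : Cov x₀) : Cov.tr (1 : FundamentalGroup M x₀) p = p := by
  obtain ⟨y, c⟩ := p
  unfold Cov.tr
  rw [inv_one]
  exact Sigma.ext rfl (heq_of_eq (Path.Homotopic.Quotient.refl_trans c))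

theorem Cov.tr_mul (g h : FundamentalGroup M x₀) (p : Cov x₀) :
    Cov.tr (g * h) p = Cov.tr g (Cov.tr h p) := by
  obtain ⟨y, c⟩ := p
  unfold Cov.tr
  rw [mul_inv_rev, FundamentalGroup.mul_def]
  exact Sigma.ext rfl (heq_of_eq (Path.Homotopic.Quotient.trans_assoc _ _ _))

/-- The action. -/
def covAction : (covS x₀).Act (FundamentalGroup M x₀) where
  act m :=
    { smul := fun g f => USimp.tr g f
      one_smul := fun f => Subtype.ext (funext fun p => Cov.tr_one (f.1 p))
      mul_smul := fun g h f => Subtype.ext (funext fun p => Cov.tr_mul g h (f.1 p)) }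
  map_smul f g x := rfl
  free {m} g x h := by
    have h1 : Cov.tr g (x.1 (stdSimplex.vertex 0)) = x.1 (stdSimplex.vertex 0) :=
      congrFun (congrArg Subtype.val h) (stdSimplex.vertex 0)
    have h2 := eq_of_heq (Sigma.ext_iff.mp h1).2
    change Path.Homotopic.Quotient.trans (g⁻¹ : FundamentalGroup M x₀).toPath
      (x.1 (stdSimplex.vertex 0)).2 = (x.1 (stdSimplex.vertex 0)).2 at h2
    generalize (x.1 (stdSimplex.vertex 0)).2 = c at h2
    have h3 : (g⁻¹ : FundamentalGroup M x₀) = 1 := by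
      have h4 := congrArg (fun z => Path.Homotopic.Quotient.trans z c.symm) h2
      simp only [Path.Homotopic.Quotient.trans_assoc, Path.Homotopic.Quotient.trans_symm,
        Path.Homotopic.Quotient.trans_refl] at h4
      exact h4
    exact inv_eq_one.mp h3

theorem exists_tr {m : ℕ} {f f' : USimp x₀ m} (h : f.proj = f'.proj) :
    ∃ g : FundamentalGroup M x₀, f' = USimp.tr g f := by
  set p : Simp m := stdSimplex.vertex 0 with hp
  have h1 : (f.1 p).1 = (f'.1 p).1 := DFunLike.congr_fun h p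
  have key : ∀ a b : Cov x₀, a.1 = b.1 → ∃ g : FundamentalGroup M x₀, b = Cov.tr g a := by
    rintro ⟨y, a⟩ ⟨z, b⟩ hyz
    change y = z at hyz
    subst hyz
    refine ⟨(FundamentalGroup.fromPath (b.trans a.symm))⁻¹, ?_⟩
    unfold Cov.tr
    rw [inv_inv]
    refine Sigma.ext rfl (heq_of_eq ?_)
    change b = (b.trans a.symm).trans a
    rw [Path.Homotopic.Quotient.trans_assoc, Path.Homotopic.Quotient.symm_trans,
      Path.Homotopic.Quotient.trans_refl]
  obtain ⟨g, hg⟩ := key _ _ h1
  refine ⟨g, lift_unique (p := p) ?_ hg⟩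
  rw [← h]
  rfl

theorem covAct : CovActStatement := by
  intro M _ _ x₀
  refine ⟨⟨covAction, fun g m f => rfl⟩, fun m τ => ?_, fun m f f' h => exists_tr h⟩
  obtain ⟨f, hf, -⟩ := exists_lift (x₀ := x₀) τ (stdSimplex.vertex 0)
    ⟨τ (stdSimplex.vertex 0), Path.Homotopic.Quotient.mk (PathConnectedSpace.somePath x₀ _)⟩ rfl
  exact ⟨f, hf⟩

end

end Pool.Agent.Lib.MP_72b724_gt.H7
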