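import Pool.Agent.Lib.MP_72b724_gt.H7.Kan

/-!
# The simplicial set of the universal cover is connected and simply connected
-/

open scoped Topology
open Set Filter Pool.Agent.Lib.MP_904b2a_gt Pool.Agent.Lib.MP_89fcdb_gt

namespace Pool.Agent.Lib.MP_72b724_gt.H7

noncomputable section

variable {M : Type} [TopologicalSpace M] {x₀ : M}

/-- The base point of the universal cover. -/
def bpt (x₀ : M) : Cov x₀ := ⟨x₀, Path.Homotopic.Quotient.refl x₀⟩

/-- The constant simplices. -/
def cpt (x₀ : M) (m : ℕ) : USimp x₀ m :=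
  ⟨fun _ => bpt x₀, continuous_const, fun p q => by
    change Path.Homotopic.Quotient.refl x₀ = (Path.Homotopic.Quotient.refl x₀).trans _
    rw [Path.Homotopic.Quotient.refl_trans]
    exact congrArg (fun z => Path.Homotopic.Quotient.mk z)
      (Path.ext rfl : Path.refl x₀ = segPath (continuous_const) p q)⟩

/-- The base point. -/
def covPt (x₀ : M) : (covS x₀).Pt where
  pt := cpt x₀
  map_pt _ := rfl

theorem vertex_apply {m : ℕ} (i j : Fin (m + 1)) :
    (stdSimplex.vertex (S := ℝ) i : Simp m) j = if j = i then 1 else 0 := by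
  simp [Pi.single_apply]

theorem smap_vertex {m n : ℕ} (f : Fin (m + 1) → Fin (n + 1)) (i : Fin (m + 1)) :
    smap f (stdSimplex.vertex i) = stdSimplex.vertex (f i) := by
  apply Subtype.ext
  funext l
  change smap f _ l = (stdSimplex.vertex (S := ℝ) (f i) : Simp n) l
  rw [smap_apply, vertex_apply, Finset.sum_eq_single i]
  · rw [vertex_apply, if_pos rfl]
    by_cases h : f i = l
    · rw [if_pos h, if_pos h.symm]
    · rw [if_neg h, if_neg (Ne.symm h)]
  · intro b _ hb
    rw [vertex_apply, if_neg hb]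
    split_ifs <;> rfl
  · simp

/-- The value of a lift. -/
theorem lift_value {m : ℕ} {f : USimp x₀ m} {σ : Sing m M} (hf : f.proj = σ) (p q : Simp m)
    (e : σ p = x₀) (hp : f.1 p = bpt x₀) :
    f.1 q = ⟨σ q, Path.Homotopic.Quotient.mk ((segPath σ.continuous p q).cast e.symm rfl)⟩ := by
  subst hf
  have h1 : f.1 q = (mkLift f.proj p (f.1 p).2).1 q := by
    conv_lhs => rw [eq_mkLift f p]
  rw [h1, mkLift_apply]
  have key : ∀ (a b : M) (γ : Path a b) (c : Path.Homotopic.Quotient x₀ a) (e : a = x₀),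
      (⟨a, c⟩ : Cov x₀) = bpt x₀ →
      c.trans (Path.Homotopic.Quotient.mk γ) = Path.Homotopic.Quotient.mk (γ.cast e.symm rfl) := by
    intro a b γ c e hc
    subst e
    have h2 : c = Path.Homotopic.Quotient.refl a := eq_of_heq (Sigma.ext_iff.mp hc).2
    subst h2
    exact Path.Homotopic.Quotient.refl_trans _
  exact Sigma.ext rfl (heq_of_eq (key _ _ _ _ e hp))

theorem cov_ext {a b : M} (γ : Path x₀ a) (γ' : Path x₀ b) (h : ∀ t, γ t = γ' t) :
    (⟨a, Path.Homotopic.Quotient.mk γ⟩ : Cov x₀) = ⟨b, Path.Homotopic.Quotient.mk γ'⟩ := by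
  have hab : a = b := by rw [← γ.target, ← γ'.target, h 1]
  subst hab
  have : γ = γ' := by
    ext t
    exact h t
  rw [this]

/-- A coordinate as a point of the unit interval. -/
def crd {m : ℕ} (i : Fin (m + 1)) : C(Simp m, unitInterval) where
  toFun t := projIcc 0 1 zero_le_one (t i)
  continuous_toFun := continuous_projIcc.comp ((continuous_apply _).comp continuous_subtype_val)

theorem crd_segm (s : unitInterval) :
    crd 1 (segm (stdSimplex.vertex (S := ℝ) 0 : Simp 1) (stdSimplex.vertex 1) s) = s := by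
  have h : (segm (stdSimplex.vertex (S := ℝ) 0 : Simp 1) (stdSimplex.vertex 1) s) 1 = (s : ℝ) := by
    change (1 - (s : ℝ)) * (stdSimplex.vertex (S := ℝ) 0 : Simp 1) 1 +
      (s : ℝ) * (stdSimplex.vertex (S := ℝ) 1 : Simp 1) 1 = s
    rw [vertex_apply, vertex_apply]
    simp
  change projIcc 0 1 zero_le_one _ = s
  rw [h]
  exact projIcc_val _ s

theorem covS_pathConn (x₀ : M) : (covS x₀).PathConn (covPt x₀) := by
  intro x
  set v : Simp 0 := stdSimplex.vertex 0 with hv
  obtain ⟨γ, hγ⟩ : ∃ γ : Path x₀ (x.1 v).1, Path.Homotopic.Quotient.mk γ = (x.1 v).2 :=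
    Quotient.exists_rep _
  let σ : Sing 1 M := ⟨fun t => γ (crd 1 t), γ.continuous.comp (crd 1).continuous⟩
  set v0 : Simp 1 := stdSimplex.vertex 0 with hv0
  set v1 : Simp 1 := stdSimplex.vertex 1 with hv1
  have e0 : σ v0 = x₀ := by
    have h1 : crd 1 v0 = 0 := by
      change projIcc 0 1 zero_le_one (v0 1) = 0
      rw [hv0, vertex_apply]
      simp
    change γ (crd 1 v0) = x₀
    rw [h1, γ.source]
  obtain ⟨y, hy, hy0⟩ := exists_lift (x₀ := x₀) σ v0 (bpt x₀) e0.symm
  refine ⟨y, ?_, ?_⟩
  · have h1 : (Subtype.val ((covS x₀).d 0 y)) v = y.1 v1 := by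
      change y.1 (smap (Fin.succAbove 0) v) = _
      rw [hv, smap_vertex]
      rfl
    have h2 : y.1 v1 = x.1 v := by
      rw [lift_value hy v0 v1 e0 hy0]
      have h3 : x.1 v = ⟨(x.1 v).1, Path.Homotopic.Quotient.mk γ⟩ := by rw [hγ]
      rw [h3]
      refine cov_ext _ _ fun s => ?_
      change γ (crd 1 (segm v0 v1 s)) = γ s
      rw [crd_segm]
    apply Subtype.ext
    funext p
    have hp : p = v := Subsingleton.elim _ _
    rw [hp, h1, h2]
  · have h1 : (Subtype.val ((covS x₀).d 1 y)) v = y.1 v0 := by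
      change y.1 (smap (Fin.succAbove 1) v) = _
      rw [hv, smap_vertex]
      rfl
    apply Subtype.ext
    funext p
    have hp : p = v := Subsingleton.elim _ _
    rw [hp, h1, hy0]
    rfl

theorem coord_one (p : Simp 1) :
    segm (stdSimplex.vertex (S := ℝ) 0 : Simp 1) (stdSimplex.vertex 1) (crd 1 p) = p := by
  have h0 : 0 ≤ p 1 := p.2.1 1
  have h1 : p 0 + p 1 = 1 := by
    have := p.2.2
    rw [Fin.sum_univ_two] at this
    exact this
  have h2 : 0 ≤ p 0 := p.2.1 0
  have hc : ((crd 1 p : unitInterval) : ℝ) = p 1 := by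
    change ((projIcc 0 1 zero_le_one (p 1) : unitInterval) : ℝ) = p 1
    rw [projIcc_of_mem zero_le_one ⟨h0, by linarith⟩]
  apply Subtype.ext
  funext i
  change (1 - ((crd 1 p : unitInterval) : ℝ)) * (stdSimplex.vertex (S := ℝ) 0 : Simp 1) i +
      ((crd 1 p : unitInterval) : ℝ) * (stdSimplex.vertex (S := ℝ) 1 : Simp 1) i = p i
  rw [hc, vertex_apply, vertex_apply]
  fin_cases i
  · simp
    linarith
  · simp

theorem covS_simplyConn (x₀ : M) : (covS x₀).SimplyConn (covPt x₀) := by
  intro x hx0 hx1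
  set v : Simp 0 := stdSimplex.vertex 0 with hv
  set v0 : Simp 1 := stdSimplex.vertex 0 with hv0
  set v1 : Simp 1 := stdSimplex.vertex 1 with hv1
  have b1 : x.1 v1 = bpt x₀ := by
    have h := congrFun (congrArg Subtype.val hx0) v
    change x.1 (smap (Fin.succAbove 0) v) = _ at h
    rw [hv, smap_vertex] at h
    exact h
  have b0 : x.1 v0 = bpt x₀ := by
    have h := congrFun (congrArg Subtype.val hx1) v
    change x.1 (smap (Fin.succAbove 1) v) = _ at h
    rw [hv, smap_vertex] at h
    exact h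
  set σ : Sing 1 M := x.proj with hσ
  have e0 : σ v0 = x₀ := congrArg Sigma.fst b0
  have e1 : σ v1 = x₀ := congrArg Sigma.fst b1
  let ℓ : Path x₀ x₀ := (segPath σ.continuous v0 v1).cast e0.symm e1.symm
  have hℓ : ℓ.Homotopic (Path.refl x₀) := by
    have h1 := lift_value (f := x) rfl v0 v1 e0 b0
    rw [b1] at h1
    have h2 : (⟨x.proj v1, Path.Homotopic.Quotient.mk
        ((segPath x.proj.continuous v0 v1).cast e0.symm rfl)⟩ : Cov x₀) =
        ⟨x₀, Path.Homotopic.Quotient.mk ℓ⟩ := cov_ext _ _ fun s => rfl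
    have h3 : bpt x₀ = ⟨x₀, Path.Homotopic.Quotient.mk ℓ⟩ := h1.trans h2
    have h4 : Path.Homotopic.Quotient.refl x₀ = Path.Homotopic.Quotient.mk ℓ :=
      eq_of_heq (Sigma.ext_iff.mp h3).2
    exact Path.Homotopic.Quotient.eq.mp h4.symm
  obtain ⟨H⟩ := hℓ
  let uu : C(Simp 2, unitInterval) :=
    ⟨fun t => projIcc 0 1 zero_le_one (t 2 / max (1 - t 0) (1 / 2)), by
      refine continuous_projIcc.comp ?_
      have hc : ∀ j, Continuous fun t : Simp 2 => t j := fun j =>
        (continuous_apply _).comp continuous_subtype_val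
      refine (hc 2).div ((continuous_const.sub (hc 0)).max continuous_const) fun t => ?_
      have : (0 : ℝ) < max (1 - t 0) (1 / 2) := lt_max_of_lt_right (by norm_num)
      exact this.ne'⟩
  let ss : C(Simp 2, unitInterval) :=
    ⟨fun t => projIcc 0 1 zero_le_one (2 * t 0), by
      refine continuous_projIcc.comp ?_
      exact continuous_const.mul ((continuous_apply _).comp continuous_subtype_val)⟩
  let σ2 : Sing 2 M := ⟨fun t => H (ss t, uu t), H.continuous.comp (ss.continuous.prodMk uu.continuous)⟩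
  have hsum : ∀ t : Simp 2, t 0 + t 1 + t 2 = 1 := by
    intro t
    have := t.2.2
    rw [Fin.sum_univ_three] at this
    exact this
  -- the faces
  have f2 : ∀ t : Simp 2, t 2 = 0 → σ2 t = x₀ := by
    intro t ht
    have h1 : uu t = 0 := by
      change projIcc 0 1 zero_le_one (t 2 / max (1 - t 0) (1 / 2)) = 0
      rw [ht, zero_div, projIcc_left]
      rfl
    change H (ss t, uu t) = x₀
    rw [h1]
    exact (H.eq_fst _ (by simp)).trans ℓ.source
  have f1 : ∀ t : Simp 2, t 1 = 0 → σ2 t = x₀ := by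
    intro t ht
    have h0 := hsum t
    have hp0 : 0 ≤ t 0 := t.2.1 0
    have hp2 : 0 ≤ t 2 := t.2.1 2
    change H (ss t, uu t) = x₀
    by_cases hh : t 0 ≤ 1 / 2
    · have h1 : uu t = 1 := by
        change projIcc 0 1 zero_le_one (t 2 / max (1 - t 0) (1 / 2)) = 1
        rw [max_eq_left (by linarith), show t 2 = 1 - t 0 by linarith,
          div_self (by linarith), projIcc_right]
        rfl
      rw [h1]
      exact (H.eq_fst _ (by simp)).trans ℓ.target
    · have h1 : ss t = 1 := by
        change projIcc 0 1 zero_le_one (2 * t 0) = 1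
        rw [projIcc_of_right_le zero_le_one (by linarith)]
        rfl
      rw [h1, H.apply_one]
      rfl
  have f0 : ∀ p : Simp 1, σ2 (smap (Fin.succAbove 0) p) = σ p := by
    intro p
    set t : Simp 2 := smap (Fin.succAbove 0) p with ht
    have h0 : t 0 = 0 := smap_face_coord 0 p
    have h2 : t 2 = p 1 := by
      rw [ht, smap_apply, Fin.sum_univ_two]
      simp [Fin.ext_iff]
    have h3 : ss t = 0 := by
      change projIcc 0 1 zero_le_one (2 * t 0) = 0
      rw [h0, mul_zero, projIcc_left]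
      rfl
    have h4 : uu t = crd 1 p := by
      change projIcc 0 1 zero_le_one (t 2 / max (1 - t 0) (1 / 2)) = projIcc 0 1 zero_le_one (p 1)
      rw [h0, h2, sub_zero, max_eq_left (by norm_num), div_one]
    change H (ss t, uu t) = σ p
    rw [h3, h4, H.apply_zero]
    change σ (segm v0 v1 (crd 1 p)) = σ p
    rw [coord_one]
  -- the lift
  set w : Simp 2 := stdSimplex.vertex 0 with hw
  have hw0 : σ2 w = x₀ := f2 w (by rw [hw, vertex_apply]; simp)
  obtain ⟨y, hy, hyw⟩ := exists_lift (x₀ := x₀) σ2 w (bpt x₀) hw0.symm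
  have hyp : ∀ q, (y.1 q).1 = σ2 q := fun q => DFunLike.congr_fun hy q
  have d1 : (covS x₀).d 1 y = (covPt x₀).pt 1 := by
    refine lift_unique (p := v0) ?_ ?_
    · ext q
      change (y.1 (smap (Fin.succAbove 1) q)).1 = x₀
      rw [hyp]
      exact f1 _ (smap_face_coord 1 q)
    · change y.1 (smap (Fin.succAbove 1) v0) = bpt x₀
      rw [hv0, smap_vertex]
      exact hyw
  have d2 : (covS x₀).d 2 y = (covPt x₀).pt 1 := by
    refine lift_unique (p := v0) ?_ ?_
    · ext q
      change (y.1 (smap (Fin.succAbove 2) q)).1 = x₀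
      rw [hyp]
      exact f2 _ (smap_face_coord 2 q)
    · change y.1 (smap (Fin.succAbove 2) v0) = bpt x₀
      rw [hv0, smap_vertex]
      exact hyw
  refine ⟨y, ?_, d1, d2⟩
  refine lift_unique (p := v0) ?_ ?_
  · ext q
    change (y.1 (smap (Fin.succAbove 0) q)).1 = σ q
    rw [hyp]
    exact f0 q
  · change y.1 (smap (Fin.succAbove 0) v0) = x.1 v0
    have h := congrFun (congrArg Subtype.val d2) v1
    change y.1 (smap (Fin.succAbove 2) v1) = bpt x₀ at h
    rw [hv1, smap_vertex] at h
    rw [b0, hv0, smap_vertex]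
    exact h

theorem covConn : CovConnStatement := by
  intro M _ x₀
  exact ⟨covPt x₀, covS_pathConn x₀, covS_simplyConn x₀⟩

end

end Pool.Agent.Lib.MP_72b724_gt.H7
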