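import Pool.Agent.Lib.MP_72b724_gt.H7.Lift

/-!
# The singular simplices of the universal cover form a Kan complex
-/

open scoped Topology
open Set Filter Pool.Agent.Lib.MP_904b2a_gt Pool.Agent.Lib.MP_89fcdb_gt

namespace Pool.Agent.Lib.MP_72b724_gt.H7

noncomputable section

/-! ## Coordinates -/

/-- A left inverse of the coface map. -/
def lft {n : ℕ} (i : Fin (n + 2)) : Fin (n + 2) → Fin (n + 1) := Function.invFun i.succAbove

theorem lft_succAbove {n : ℕ} (i : Fin (n + 2)) (a : Fin (n + 1)) : lft i (i.succAbove a) = a :=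
  Function.leftInverse_invFun Fin.succAbove_right_injective a

theorem lft_comp {n : ℕ} (i : Fin (n + 2)) : lft i ∘ i.succAbove = id :=
  funext fun a => lft_succAbove i a

theorem smap_smap {l m n : ℕ} (f : Fin (m + 1) → Fin (n + 1)) (g : Fin (l + 1) → Fin (m + 1))
    (t : Simp l) : smap f (smap g t) = smap (f ∘ g) t :=
  DFunLike.congr_fun (smap_comp f g) t

theorem smap_id' {n : ℕ} (t : Simp n) : smap (id : Fin (n + 1) → Fin (n + 1)) t = t :=
  DFunLike.congr_fun (smap_id n) t

theorem smap_lft {n : ℕ} (i : Fin (n + 2)) (s : Simp n) : smap (lft i) (smap i.succAbove s) = s := by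
  rw [smap_smap, lft_comp, smap_id']

/-- A point of the simplex with `t i = 0` lies in the `i`-th face. -/
theorem smap_succAbove_lft {n : ℕ} (i : Fin (n + 2)) (t : Simp (n + 1)) (h : t i = 0) :
    smap i.succAbove (smap (lft i) t) = t := by
  rw [smap_smap]
  apply Subtype.ext
  funext l
  change smap _ t l = t l
  rw [smap_apply]
  rw [Finset.sum_eq_single l]
  · by_cases hl : l = i
    · subst hl
      rw [h]
      split_ifs <;> rfl
    · obtain ⟨a, rfl⟩ := Fin.exists_succAbove_eq hl
      rw [if_pos]
      simp only [Function.comp_apply, lft_succAbove]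
  · intro b _ hb
    by_cases hbi : b = i
    · subst hbi
      rw [h]
      split_ifs <;> rfl
    · obtain ⟨a, rfl⟩ := Fin.exists_succAbove_eq hbi
      rw [if_neg]
      simp only [Function.comp_apply, lft_succAbove]
      exact hb
  · simp

theorem smap_face_coord {n : ℕ} (i : Fin (n + 2)) (s : Simp n) : smap i.succAbove s i = 0 := by
  rw [smap_apply]
  exact Finset.sum_eq_zero fun a _ => if_neg (Fin.succAbove_ne i a)

theorem smap_lft_coord {n : ℕ} (i : Fin (n + 2)) (t : Simp (n + 1)) (h : t i = 0)
    (a : Fin (n + 1)) : smap (lft i) t a = t (i.succAbove a) := by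
  rw [smap_apply, Finset.sum_eq_single (i.succAbove a)]
  · rw [if_pos (lft_succAbove i a)]
  · intro b _ hb
    by_cases hbi : b = i
    · subst hbi
      rw [h]
      split_ifs <;> rfl
    · obtain ⟨c, rfl⟩ := Fin.exists_succAbove_eq hbi
      rw [if_neg]
      rw [lft_succAbove]
      rintro rfl
      exact hb rfl
  · simp

/-- The simplicial identity. -/
theorem succAbove_comp {n : ℕ} (i j : Fin (n + 2)) (h : i ≤ j) :
    j.succ.succAbove ∘ i.succAbove = i.castSucc.succAbove ∘ j.succAbove := by
  funext a
  simp only [Function.comp_apply]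
  apply Fin.ext
  simp only [Fin.succAbove, Fin.lt_def, Fin.le_def] at *
  split_ifs <;> simp at * <;> omega

/-! ## The retraction of the simplex on a horn -/

section Retr

variable {n : ℕ} (k : Fin (n + 2))

/-- The minimum of the coordinates different from `k`. -/
def mu (t : Simp (n + 1)) : ℝ :=
  (Finset.univ : Finset (Fin (n + 1))).inf' Finset.univ_nonempty fun a => t (k.succAbove a)

theorem mu_continuous : Continuous (mu k) := by
  unfold mu
  refine Continuous.finset_inf'_apply _ fun a _ => ?_
  exact (continuous_apply _).comp continuous_subtype_val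

theorem mu_le (t : Simp (n + 1)) (a : Fin (n + 1)) : mu k t ≤ t (k.succAbove a) :=
  Finset.inf'_le _ (Finset.mem_univ a)

theorem mu_nonneg (t : Simp (n + 1)) : 0 ≤ mu k t :=
  Finset.le_inf' _ _ fun a _ => t.2.1 _

theorem exists_mu (t : Simp (n + 1)) : ∃ a : Fin (n + 1), mu k t = t (k.succAbove a) := by
  obtain ⟨a, -, ha⟩ := Finset.exists_mem_eq_inf' (s := (Finset.univ : Finset (Fin (n + 1))))
    Finset.univ_nonempty (fun a => t (k.succAbove a))
  exact ⟨a, ha⟩

/-- The retraction of the simplex on the horn at `k`. -/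
def retr : C(Simp (n + 1), Simp (n + 1)) where
  toFun t := ⟨k.insertNth (t k + (n + 1 : ℝ) * mu k t) fun a => t (k.succAbove a) - mu k t, by
    constructor
    · intro i
      refine Fin.succAboveCases k ?_ (fun a => ?_) i
      · rw [Fin.insertNth_apply_same]
        have h1 : 0 ≤ t k := t.2.1 k
        have h2 := mu_nonneg k t
        positivity
      · rw [Fin.insertNth_apply_succAbove]
        exact sub_nonneg.mpr (mu_le k t a)
    · rw [Fin.sum_univ_succAbove _ k]
      simp only [Fin.insertNth_apply_same, Fin.insertNth_apply_succAbove]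
      rw [Finset.sum_sub_distrib]
      have h1 : t k + ∑ a, t (k.succAbove a) = 1 := by
        rw [← Fin.sum_univ_succAbove (fun i => t i) k]
        exact t.2.2
      simp only [Finset.sum_const, Finset.card_univ, Fintype.card_fin, nsmul_eq_mul]
      push_cast
      linarith⟩
  continuous_toFun := by
    apply Continuous.subtype_mk
    refine continuous_pi fun i => ?_
    have h1 : ∀ j, Continuous fun t : Simp (n + 1) => t j := fun j =>
      (continuous_apply _).comp continuous_subtype_val
    refine Fin.succAboveCases k ?_ (fun a => ?_) i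
    · simp only [Fin.insertNth_apply_same]
      exact (h1 k).add (continuous_const.mul (mu_continuous k))
    · simp only [Fin.insertNth_apply_succAbove]
      exact (h1 _).sub (mu_continuous k)

theorem retr_succAbove (t : Simp (n + 1)) (a : Fin (n + 1)) :
    retr k t (k.succAbove a) = t (k.succAbove a) - mu k t := by
  change (k.insertNth (α := fun _ => ℝ) (t k + (n + 1 : ℝ) * mu k t)
    (fun a => t (k.succAbove a) - mu k t) : Fin (n + 2) → ℝ) (k.succAbove a) = _
  rw [Fin.insertNth_apply_succAbove]

theorem retr_same (t : Simp (n + 1)) : retr k t k = t k + (n + 1 : ℝ) * mu k t := by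
  change (k.insertNth (α := fun _ => ℝ) (t k + (n + 1 : ℝ) * mu k t)
    (fun a => t (k.succAbove a) - mu k t) : Fin (n + 2) → ℝ) k = _
  rw [Fin.insertNth_apply_same]

theorem exists_retr_zero (t : Simp (n + 1)) : ∃ i, i ≠ k ∧ retr k t i = 0 := by
  obtain ⟨a, ha⟩ := exists_mu k t
  refine ⟨k.succAbove a, Fin.succAbove_ne k a, ?_⟩
  rw [retr_succAbove, ha, sub_self]

theorem retr_eq (t : Simp (n + 1)) (i : Fin (n + 2)) (hi : i ≠ k) (h : t i = 0) :
    retr k t = t := by
  obtain ⟨a, rfl⟩ := Fin.exists_succAbove_eq hi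
  have h0 : mu k t = 0 := le_antisymm ((mu_le k t a).trans h.le) (mu_nonneg k t)
  apply Subtype.ext
  funext l
  change retr k t l = t l
  refine Fin.succAboveCases k ?_ (fun b => ?_) l
  · rw [retr_same, h0, mul_zero, add_zero]
  · rw [retr_succAbove, h0, sub_zero]

end Retr

/-! ## The horn -/

section Horn

variable {M : Type} [TopologicalSpace M] {x₀ : M} {m : ℕ} (k : Fin (m + 3))
  (y : Fin (m + 3) → USimp x₀ (m + 1))

/-- The compatibility of the faces of the horn. -/
def Comp : Prop := ∀ i j : Fin (m + 2), i ≤ j → i.castSucc ≠ k → j.succ ≠ k →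
  (covS x₀).d i (y j.succ) = (covS x₀).d j (y i.castSucc)

variable {k y}

theorem comp_lt (h : Comp k y) {i j : Fin (m + 3)} (hij : i < j) (hi : i ≠ k) (hj : j ≠ k)
    (t : Simp (m + 2)) (ti : t i = 0) (tj : t j = 0) :
    (y i).1 (smap (lft i) t) = (y j).1 (smap (lft j) t) := by
  obtain ⟨i', rfl⟩ : ∃ i' : Fin (m + 2), i = i'.castSucc :=
    ⟨⟨i, by have := j.2; have : (i : ℕ) < j := hij; omega⟩, rfl⟩
  obtain ⟨j', rfl⟩ : ∃ j' : Fin (m + 2), j = j'.succ :=
    ⟨⟨j - 1, by have := j.2; omega⟩, by
      apply Fin.ext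
      have : (i'.castSucc : ℕ) < j := hij
      simp only [Fin.val_succ]
      omega⟩
  have hle : i' ≤ j' := by
    have : (i'.castSucc : ℕ) < j'.succ := hij
    simp only [Fin.val_castSucc, Fin.val_succ] at this
    exact Fin.le_def.mpr (by omega)
  have hsa : j'.succ.succAbove i' = i'.castSucc :=
    Fin.succAbove_of_castSucc_lt _ _ hij
  have hc := h i' j' hle hi hj
  set u : Simp m := smap (lft i') (smap (lft j'.succ) t) with hu
  have e1 : smap i'.succAbove u = smap (lft j'.succ) t := by
    refine smap_succAbove_lft i' _ ?_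
    rw [smap_lft_coord _ _ tj, hsa]
    exact ti
  have e2 : smap j'.succAbove u = smap (lft i'.castSucc) t := by
    have h1 : smap (i'.castSucc.succAbove) (smap j'.succAbove u) = t := by
      rw [smap_smap, ← succAbove_comp _ _ hle, ← smap_smap, e1, smap_succAbove_lft _ _ tj]
    rw [← smap_lft i'.castSucc (smap j'.succAbove u), h1]
  have h2 : (y j'.succ).1 (smap i'.succAbove u) = (y i'.castSucc).1 (smap j'.succAbove u) :=
    congrFun (congrArg Subtype.val hc) u
  rw [e1, e2] at h2
  exact h2.symm

theorem comp_eq (h : Comp k y) {i j : Fin (m + 3)} (hi : i ≠ k) (hj : j ≠ k)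
    (t : Simp (m + 2)) (ti : t i = 0) (tj : t j = 0) :
    (y i).1 (smap (lft i) t) = (y j).1 (smap (lft j) t) := by
  rcases lt_trichotomy i j with hij | rfl | hij
  · exact comp_lt h hij hi hj t ti tj
  · rfl
  · exact (comp_lt h hij hj hi t tj ti).symm

variable (k y)

/-- The filler, as a function to the universal cover. -/
def fill (t : Simp (m + 2)) : Cov x₀ :=
  (y (exists_retr_zero k t).choose).1 (smap (lft (exists_retr_zero k t).choose) (retr k t))

variable {k y}

theorem fill_eq (h : Comp k y) (t : Simp (m + 2)) (i : Fin (m + 3)) (hi : i ≠ k)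
    (ti : retr k t i = 0) : fill k y t = (y i).1 (smap (lft i) (retr k t)) := by
  have hc := (exists_retr_zero k t).choose_spec
  exact comp_eq h hc.1 hi _ hc.2 ti

theorem fill_face (h : Comp k y) (i : Fin (m + 3)) (hi : i ≠ k) (s : Simp (m + 1)) :
    fill k y (smap i.succAbove s) = (y i).1 s := by
  have h0 := smap_face_coord i s
  have h1 := retr_eq k _ i hi h0
  rw [fill_eq h _ i hi (by rw [h1]; exact h0), h1, smap_lft]

theorem fill_continuous (h : Comp k y) : Continuous fun t => (fill k y t).1 := by
  refine LocallyFinite.continuous (f := fun i : {i // i ≠ k} => {t | retr k t i = 0})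
    (locallyFinite_of_finite _) ?_ ?_ ?_
  · rw [eq_univ_iff_forall]
    intro t
    obtain ⟨i, hi, h0⟩ := exists_retr_zero k t
    exact mem_iUnion.mpr ⟨⟨i, hi⟩, h0⟩
  · intro i
    refine isClosed_eq ?_ continuous_const
    exact ((continuous_apply _).comp continuous_subtype_val).comp (retr k).continuous
  · intro i
    have hcont : Continuous fun t : Simp (m + 2) => ((y i).1 (smap (lft i) (retr k t))).1 :=
      (y i).2.choose.comp ((smap (lft i.1)).continuous.comp (retr k).continuous)
    refine hcont.continuousOn.congr fun t ht => ?_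
    exact congrArg Sigma.fst (fill_eq h t i i.2 ht)

end Horn

theorem covKan : CovKanStatement := by
  intro M _ x₀ m k y hy
  change Comp k y at hy
  let σ : Sing (m + 2) M := ⟨fun t => (fill k y t).1, fill_continuous hy⟩
  set v : Simp (m + 2) := stdSimplex.vertex k with hv
  obtain ⟨x, hx, hxv⟩ := exists_lift (x₀ := x₀) σ v (fill k y v) rfl
  refine ⟨x, fun i hi => ?_⟩
  have hvi : v i = 0 := by
    rw [hv]
    simp [hi]
  refine lift_unique (p := smap (lft i) v) ?_ ?_
  · ext s
    change (x.1 (smap i.succAbove s)).1 = ((y i).1 s).1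
    have h1 : (x.1 (smap i.succAbove s)).1 = σ (smap i.succAbove s) := DFunLike.congr_fun hx _
    rw [h1]
    exact congrArg Sigma.fst (fill_face hy i hi s)
  · change x.1 (smap i.succAbove (smap (lft i) v)) = (y i).1 (smap (lft i) v)
    rw [← fill_face hy i hi, smap_succAbove_lft i v hvi, hxv]

end

end Pool.Agent.Lib.MP_72b724_gt.H7
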