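import Pool.Agent.Lib.MP_72b724_gt.Interfaces

/-!
# Lifts of singular simplices to the universal cover
-/

open scoped Topology
open Set Filter Pool.Agent.Lib.MP_904b2a_gt Pool.Agent.Lib.MP_89fcdb_gt

namespace Pool.Agent.Lib.MP_72b724_gt.H7

noncomputable section

variable {M : Type} [TopologicalSpace M]

instance (m : ℕ) : ContractibleSpace (Simp m) := by
  refine (convex_stdSimplex ℝ (Fin (m + 1))).contractibleSpace ?_
  exact ⟨_, (stdSimplex.vertex (S := ℝ) (0 : Fin (m + 1))).2⟩

/-- The segment as a path. -/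
def seg {m : ℕ} (p q : Simp m) : Path p q where
  toFun t := segm p q t
  continuous_toFun := (segm p q).continuous
  source' := by
    apply Subtype.ext
    funext i
    change (1 - ((0 : unitInterval) : ℝ)) * p i + ((0 : unitInterval) : ℝ) * q i = p i
    simp
  target' := by
    apply Subtype.ext
    funext i
    change (1 - ((1 : unitInterval) : ℝ)) * p i + ((1 : unitInterval) : ℝ) * q i = q i
    simp

theorem segPath_eq {m : ℕ} {f : Simp m → M} (h : Continuous f) (p q : Simp m) :
    segPath h p q = (seg p q).map h := by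
  ext t
  rfl

/-- All paths in a simplex with the same endpoints have homotopic images. -/
theorem mk_map_eq {m : ℕ} {f : Simp m → M} (h : Continuous f) {p q : Simp m} (γ γ' : Path p q) :
    Path.Homotopic.Quotient.mk (γ.map h) = Path.Homotopic.Quotient.mk (γ'.map h) := by
  have : γ.Homotopic γ' := SimplyConnectedSpace.paths_homotopic γ γ'
  exact Path.Homotopic.Quotient.eq.mpr (this.map ⟨f, h⟩)

theorem mk_segPath {m : ℕ} {f : Simp m → M} (h : Continuous f) {p q : Simp m} (γ : Path p q) :
    Path.Homotopic.Quotient.mk (segPath h p q) = Path.Homotopic.Quotient.mk (γ.map h) := by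
  rw [segPath_eq]
  exact mk_map_eq h _ _

theorem segPath_trans {m : ℕ} {f : Simp m → M} (h : Continuous f) (p q r : Simp m) :
    (Path.Homotopic.Quotient.mk (segPath h p q)).trans
      (Path.Homotopic.Quotient.mk (segPath h q r)) =
      Path.Homotopic.Quotient.mk (segPath h p r) := by
  rw [mk_segPath h ((seg p q).trans (seg q r)), Path.map_trans, segPath_eq, segPath_eq]
  rfl

theorem segPath_self {m : ℕ} {f : Simp m → M} (h : Continuous f) (p : Simp m) :
    Path.Homotopic.Quotient.mk (segPath h p p) = Path.Homotopic.Quotient.refl (f p) := by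
  rw [mk_segPath h (Path.refl p)]
  exact congrArg _ (Path.ext rfl)

/-- The lift with a given value at a given point. -/
def mkLift {x₀ : M} {m : ℕ} (σ : Sing m M) (p : Simp m) (c : Path.Homotopic.Quotient x₀ (σ p)) :
    USimp x₀ m :=
  ⟨fun q => ⟨σ q, c.trans (Path.Homotopic.Quotient.mk (segPath σ.continuous p q))⟩,
    σ.continuous, fun q r => by
      change _ = (c.trans _).trans _
      rw [Path.Homotopic.Quotient.trans_assoc]
      exact congrArg (fun z => c.trans z) (segPath_trans σ.continuous p q r).symm⟩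

theorem mkLift_apply {x₀ : M} {m : ℕ} (σ : Sing m M) (p : Simp m)
    (c : Path.Homotopic.Quotient x₀ (σ p)) (q : Simp m) : (mkLift σ p c).1 q =
      ⟨σ q, c.trans (Path.Homotopic.Quotient.mk (segPath σ.continuous p q))⟩ := rfl

theorem mkLift_self {x₀ : M} {m : ℕ} (σ : Sing m M) (p : Simp m)
    (c : Path.Homotopic.Quotient x₀ (σ p)) : (mkLift σ p c).1 p = ⟨σ p, c⟩ := by
  rw [mkLift_apply, segPath_self]
  congr 1
  exact Path.Homotopic.Quotient.trans_refl _

theorem mkLift_proj {x₀ : M} {m : ℕ} (σ : Sing m M) (p : Simp m)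
    (c : Path.Homotopic.Quotient x₀ (σ p)) : (mkLift σ p c).proj = σ := rfl

theorem eq_mkLift {x₀ : M} {m : ℕ} (f : USimp x₀ m) (p : Simp m) :
    f = mkLift f.proj p (f.1 p).2 := by
  apply Subtype.ext
  funext q
  rw [mkLift_apply]
  exact Sigma.ext rfl (heq_of_eq (f.2.choose_spec p q))

/-- Uniqueness of lifts. -/
theorem lift_unique {x₀ : M} {m : ℕ} {f f' : USimp x₀ m} (h : f.proj = f'.proj) (p : Simp m)
    (hp : f.1 p = f'.1 p) : f = f' := by
  rw [eq_mkLift f p, eq_mkLift f' p]
  have key : ∀ (σ σ' : Sing m M) (c : Path.Homotopic.Quotient x₀ (σ p))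
      (c' : Path.Homotopic.Quotient x₀ (σ' p)), σ = σ' →
      (⟨σ p, c⟩ : Cov x₀) = ⟨σ' p, c'⟩ → mkLift σ p c = mkLift σ' p c' := by
    intro σ σ' c c' hσ hc
    subst hσ
    have : c = c' := by
      have := (Sigma.ext_iff.mp hc).2
      exact eq_of_heq this
    rw [this]
  exact key _ _ _ _ h hp

/-- Existence of lifts. -/
theorem exists_lift {x₀ : M} {m : ℕ} (σ : Sing m M) (p : Simp m) (c : Cov x₀) (hc : c.1 = σ p) :
    ∃ f : USimp x₀ m, f.proj = σ ∧ f.1 p = c := by
  obtain ⟨y, c⟩ := c
  change y = σ p at hc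
  subst hc
  exact ⟨mkLift σ p c, rfl, mkLift_self σ p c⟩

end

end Pool.Agent.Lib.MP_72b724_gt.H7
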